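import Pool.Agent.Results.MP_8cb858_nt.TwoCurvesSelmerTwo
import Pool.Agent.Results.MP_a3f657_nt.FixedNumberZeroSequences

/-!
# The 2-Selmer groups of the twists of `X_0(14)` by products of a fixed number of primes from an
# arbitrary dense set

`E D : y² = x³ + 5805 D² x - 285714 D³` are the quadratic twists of the curve `X_0(14)` (no complex
multiplication, exactly one rational point of order two).  The class `Adm` consists of the squarefree
`D = 1 mod 4` of any sign which are squares modulo `7`, prime to `3`, and all prime factors of which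
split completely in `ℚ(i, √2, √-7)` or are inert in `ℚ(√2)` and in `ℚ(√-7)`.

We fix the number `k` of the split prime divisors of `D` and the numbers `a`, `b` of the inert prime
divisors which are `3` and `5` modulo `8`, `b` even and `a + b ≥ 1`, and an arbitrary set `S` of primes
which contains a positive lower proportion of the primes of each of the kinds that occur.

Theorem.  Among the `D` with exactly `k`, `a`, `b` prime divisors of the three kinds, all of them in `S`,
ordered by `|D|` (that is, by the height of `E D`), the proportion of those for which the 2-Selmer group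
`Sel₂(E) = ker (H¹(ℚ, E[2]) → ∏ H¹(ℚ_v, E))` is as small as possible, `|Sel₂(E)| = |E(ℚ)[2]|`, tends to

`∏_{i < (k + 1) / 2} (1 - 2^{-(2 i + 1)})`,

the proportion of the nonsingular matrices among the symmetric `k` times `k` matrices over the field
with two elements.  For `k → ∞` this tends to twice the probability `C_{2,0}` of the model of Poonen and
Rains (that is, to its probability under the condition of even parity).

The criterion is that of the file `TwoCurvesSelmerTwo` of this problem; the count is that of
`FixedNumberZeroSequences` of problem `MP_a3f657_nt`, after the file `FixedNumberOfPrimes` of problem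
`MP_8b7eba_nt` of helper291 (library `Pool/Agent/V11291/FK`).
-/

set_option autoImplicit false

open Finset Filter Topology

namespace Pool.Agent.Results.MP_8cb858_nt.FixedNumberSelmerTwo

open Pool.Agent.Results.MP_a3f657_nt.TrivialSelInfTwists (R Adm Split Inert ZeroSeq)

open Pool.Agent.Results.MP_a3f657_nt.FixedNumberZeroSequences (number Family Dense Kind Rich count
  proportion model)

open Pool.Agent.Results.MP_8cb858_nt.TwoCurvesSelmerTwo (Sel2 min_iff)

open Pool.Agent.Results.MP_03e5d0_nt.TwoCurvesAnalyticRankZero (RankZeroShaTwo)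

/-- the order of the 2-Selmer group of `E D` is that of `E D (ℚ)[2]` -/
def Min (D : ℤ) : Prop := TwoCurvesSelmerTwo.Minimal (5805 * D ^ 2) (-285714 * D ^ 3)

lemma disc {D : ℤ} (hD : D ≠ 0) : 4 * (5805 * D ^ 2) ^ 3 + 27 * (-285714 * D ^ 3) ^ 2 ≠ 0 := by
  have h : 4 * (5805 * D ^ 2) ^ 3 + 27 * (-285714 * D ^ 3) ^ 2 =
      (4 * 5805 ^ 3 + 27 * 285714 ^ 2) * D ^ 6 := by ring
  rw [h]
  positivity

lemma min_zero {D : ℤ} (hD : Adm D) : Min D ↔ ZeroSeq D := by
  have hD0 : D ≠ 0 := hD.1.ne_zero
  have h1 := (Pool.Agent.Results.MP_a3f657_nt.FixedNumberZeroSequences.result.1 D hD).1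
  have h2 := Pool.Agent.Y17.X.SI.selInf_ed hD0
  have h3 : Min D ↔ RankZeroShaTwo (5805 * D ^ 2) (-285714 * D ^ 3) := min_iff (disc hD0)
  rw [h3, h1]
  refine Iff.trans ?_ h2.symm
  refine and_congr Iff.rfl (forall_congr' fun x => ?_)
  rw [two_nsmul]
  exact Iff.rfl

/-- **Main theorem.**
(1) For `D` in the class the 2-Selmer group of `E D` is minimal if and only if the matrix `R D` is
nonsingular.
(2) Let `b` be even, `a + b ≥ 1`, and let `S` be a set of primes which contains a positive lower
proportion of the primes of each of the kinds that occur.  Then the number of the `D` of the class with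
exactly `k`, `a`, `b` prime factors of the three kinds, all in `S`, and `|D| ≤ X` is between two positive
constants times `X (log log X)^(k + a + b - 1) / log X`, and the proportion of those with minimal 2-Selmer
group tends to `∏_{i < (k + 1) / 2} (1 - 2^{-(2 i + 1)})`.
(3) For `k → ∞` these proportions tend to `2 m`, `m = (1 / 2) ∏_{i ≥ 0} (1 - 2^{-(2 i + 1)}) = 0.2097...`.
(4) The `D` of these families are positive if `a` is even and negative if `a` is odd; there are none if
`b` is odd.
(5) The condition on `S` holds if `S` is the set of the numbers in a residue class `c` modulo `q`, with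
`q` prime to `14` and `c` prime to `q`. -/
theorem result :
    (∀ D : ℤ, Adm D → (Min D ↔ (R D).det ≠ 0)) ∧
    (∀ (S : Set ℕ) (k a b : ℕ), Even b → 1 ≤ a + b → Rich S k a b →
      (∃ (c C : ℝ) (X₀ : ℕ), 0 < c ∧ 0 < C ∧ ∀ X : ℕ, X₀ ≤ X →
        c * (X * Real.log (Real.log X) ^ (k + a + b - 1) / Real.log X) ≤
          (count (Family S k a b) X : ℝ) ∧
        (count (Family S k a b) X : ℝ) ≤
          C * (X * Real.log (Real.log X) ^ (k + a + b - 1) / Real.log X)) ∧
      Tendsto (fun X : ℕ => (count (fun D => Family S k a b D ∧ Min D) X : ℝ) /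
        (count (Family S k a b) X : ℝ)) atTop (𝓝 (proportion k))) ∧
    (Tendsto proportion atTop (𝓝 (2 * model)) ∧ 0.2097 < model ∧ model < 0.2098) ∧
    (∀ (S : Set ℕ) (k a b : ℕ) (D : ℤ), Family S k a b D → (0 < D ↔ Even a) ∧ Even b) ∧
    ∀ q c : ℕ, Nat.Coprime q 14 → Nat.Coprime c q → ∀ k a b : ℕ,
      Rich {p | p % q = c % q} k a b := by
  obtain ⟨h1, h2, h3, h4, h5⟩ :=
    Pool.Agent.Results.MP_a3f657_nt.FixedNumberZeroSequences.result
  refine ⟨fun D hD => (min_zero hD).trans (h1 D hD).2, fun S k a b hb hab hS => ?_, h3, h4, h5⟩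
  obtain ⟨g1, g2⟩ := h2 S k a b hb hab hS
  refine ⟨g1, ?_⟩
  have e : (fun D => Family S k a b D ∧ Min D) = fun D => Family S k a b D ∧ ZeroSeq D := by
    funext D
    apply propext
    exact and_congr_right fun h => min_zero h.1
  rw [e]
  exact g2

end Pool.Agent.Results.MP_8cb858_nt.FixedNumberSelmerTwo
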