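import Pool.Agent.Results.MP_03e5d0_nt.TwoCurvesAnalyticRankZero
import Pool.Agent.Y17.X.SelInf

/-!
# The 2-Selmer groups of the twists of two elliptic curves which are not isogenous

`Sel₂(E) = ker (H¹(ℚ, E[2]) → ∏ H¹(ℚ_v, E))` contains `E(ℚ) / 2 E(ℚ)`, so its order is at least the order
of `E(ℚ)[2]`.  We call it minimal if the orders are equal, that is, if all its elements come from
rational torsion points, or if the rank and the 2-torsion of `Ш(E)` are zero.

`y² = x³ + 5805 x - 285714` is a model of `X_0(14)` (no complex multiplication) and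
`y² = x³ - 35 x - 98` a model of `X_0(49)` (complex multiplication by `ℤ[(1 + √-7)/2]`).  We twist any
finite number of the quadratic twists `E_M` of the first one and `A_L` of the second one by the same
integers `D` of the class `Base`.

Theorem.  Let `c = ∏_{i ≥ 0} (1 - 2 ^ (-(2 i + 1))) = 0.4194...`, twice the probability of `dim Sel₂ = 0` in
the model of Poonen and Rains, that is, its probability under the condition of even parity.  The
events that the 2-Selmer groups of the curves `E_{M D}`, `A_{L D}` are minimal have probability `c` each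
and are asymptotically independent: each pattern of `n` minimal and `n'` other groups has the exact
proportion `c ^ n (1 - c) ^ n'`.

The joint law for the events: finitely many rational points and `Ш[2] = 0`, is in the file
`TwoCurvesAnalyticRankZero` of problem `MP_03e5d0_nt`, after `TwoCurvesJointProportion` of problem
`MP_696deb_nt` of helper291.
-/

set_option autoImplicit false

open Finset

namespace Pool.Agent.Results.MP_8cb858_nt.TwoCurvesSelmerTwo

open WeierstrassCurve Pool.Agent.TH841.SH.D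

open Pool.Agent.Y17.X.SI (PC BC ga cb ex_rat sha_cb)

open Pool.Agent.TH841.SH (IsR)

open Pool.Agent.Results.MP_03e5d0_nt.TwoCurvesAnalyticRankZero (E RankZeroShaTwo AnRankZero Split
  Inert Inert5 Base Fam14 Fam49 All count an14 an49 mem_fil)

/-- `f` is a continuous cocycle with values in `W[2]` whose classes in `H¹(ℚ_v, W)` are trivial for
all the places `v` -/
def IsSel2 (W : WeierstrassCurve ℚ) (f : Coch W) : Prop := IsShaCoc W f ∧ ∀ σ, f σ + f σ = 0

/-- the group of the Selmer cocycles -/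
def sel2Coc (W : WeierstrassCurve ℚ) : AddSubgroup (Coch W) where
  carrier := {f | IsSel2 W f}
  zero_mem' := ⟨sha_zero W, fun σ => add_zero (0 : PC W)⟩
  add_mem' := by
    rintro f g ⟨a1, a2⟩ ⟨b1, b2⟩
    refine ⟨sha_add a1 b1, fun σ => ?_⟩
    change f σ + g σ + (f σ + g σ) = 0
    have : f σ + g σ + (f σ + g σ) = (f σ + f σ) + (g σ + g σ) := by abel
    rw [this, a2, b2, add_zero]
  neg_mem' := by
    rintro f ⟨a1, a2⟩
    refine ⟨sha_neg a1, fun σ => ?_⟩
    change -f σ + -f σ = 0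
    have : -f σ + -f σ = -(f σ + f σ) := by abel
    rw [this, a2, neg_zero]

/-- `f` is the coboundary of a point of order dividing `2` -/
def IsCob2 (W : WeierstrassCurve ℚ) (f : Coch W) : Prop :=
  ∃ P : PC W, P + P = 0 ∧ ∀ σ : Gal ℚ, f σ = ga W σ P - P

/-- the group of the coboundaries of the points of order dividing `2` -/
def cob2 (W : WeierstrassCurve ℚ) : AddSubgroup (Coch W) where
  carrier := {f | IsCob2 W f}
  zero_mem' := ⟨0, add_zero 0, fun σ => by
    change (0 : PC W) = ga W σ 0 - 0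
    rw [map_zero, sub_zero]⟩
  add_mem' := by
    rintro f g ⟨P, hP1, hP2⟩ ⟨Q, hQ1, hQ2⟩
    refine ⟨P + Q, ?_, fun σ => ?_⟩
    · have : P + Q + (P + Q) = (P + P) + (Q + Q) := by abel
      rw [this, hP1, hQ1, add_zero]
    · change f σ + g σ = _
      rw [hP2, hQ2, map_add]
      abel
  neg_mem' := by
    rintro f ⟨P, hP1, hP2⟩
    refine ⟨-P, ?_, fun σ => ?_⟩
    · have : -P + -P = -(P + P) := by abel
      rw [this, hP1, neg_zero]
    · change -f σ = _
      rw [hP2, map_neg]
      abel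

/-- the `2`-Selmer group `ker (H¹(ℚ, W[2]) → ∏ H¹(ℚ_v, W))` -/
def Sel2 (W : WeierstrassCurve ℚ) : Type := sel2Coc W ⧸ (cob2 W).addSubgroupOf (sel2Coc W)

/-- the group law -/
noncomputable instance Sel2.group (W : WeierstrassCurve ℚ) : AddCommGroup (Sel2 W) :=
  @QuotientAddGroup.Quotient.addCommGroup (sel2Coc W) _ ((cob2 W).addSubgroupOf (sel2Coc W))

/-- The order of the `2`-Selmer group of `y² = x³ + a x + b` is the number of rational points of order
dividing `2`. (It is always a multiple of this number.) -/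
def Minimal (a b : ℤ) : Prop :=
  Nat.card (Sel2 (E a b)) = Nat.card {P : (E a b).toAffine.Point // P + P = 0}

/-- All elements of the `2`-Selmer group come from rational torsion points: each Selmer cocycle is the
coboundary of a torsion point `R` (over the algebraic closure; then `2 R` is rational). -/
def FromTorsion (a b : ℤ) : Prop :=
  ∀ f : Coch (E a b), IsSel2 (E a b) f → ∃ R : PC (E a b), (∃ n : ℕ, n ≠ 0 ∧ n • R = 0) ∧
    ∀ σ : Gal ℚ, f σ = ga (E a b) σ R - R

section general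

variable {W : WeierstrassCurve ℚ}

/-- `FromTorsion` for all curves -/
def FT (W : WeierstrassCurve ℚ) : Prop :=
  ∀ f : Coch W, IsSel2 W f → ∃ R : PC W, (∃ n : ℕ, n ≠ 0 ∧ n • R = 0) ∧
    ∀ σ : Gal ℚ, f σ = ga W σ R - R

/-- a finitely generated group `A = 2 A + A_tors` is finite -/
lemma fin_of {A : Type} [AddCommGroup A] (hfg : AddGroup.FG A)
    (h : ∀ P : A, ∃ Q T : A, P = Q + Q + T ∧ ∃ n : ℕ, n ≠ 0 ∧ n • T = 0) : Finite A := by
  have hM : Module.Finite ℤ A := Module.Finite.iff_addGroup_fg.2 hfg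
  let t : Submodule ℤ A := Submodule.torsion ℤ A
  have hTt : ∀ T : A, (∃ n : ℕ, n ≠ 0 ∧ n • T = 0) → T ∈ t := by
    rintro T ⟨m, hm0, hm⟩
    rw [Submodule.mem_torsion_iff]
    refine ⟨⟨(m : ℤ), mem_nonZeroDivisors_of_ne_zero (by exact_mod_cast hm0)⟩, ?_⟩
    change (m : ℤ) • T = 0
    rw [natCast_zsmul, hm]
  have hle : (⊤ : Submodule ℤ (A ⧸ t)) ≤ (Ideal.span {(2 : ℤ)}) • (⊤ : Submodule ℤ (A ⧸ t)) := by
    intro x _
    obtain ⟨P, rfl⟩ := Submodule.Quotient.mk_surjective t x
    obtain ⟨Q, T, hP, hT⟩ := h P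
    have h1 : (Submodule.Quotient.mk P : A ⧸ t) = (2 : ℤ) • (Submodule.Quotient.mk Q : A ⧸ t) := by
      rw [← Submodule.Quotient.mk_smul, ← sub_eq_zero, ← Submodule.Quotient.mk_sub,
        Submodule.Quotient.mk_eq_zero, hP]
      have h2 : Q + Q + T - (2 : ℤ) • Q = T := by
        rw [two_smul]
        abel
      rw [h2]
      exact hTt T hT
    rw [h1]
    exact Submodule.smul_mem_smul (Ideal.mem_span_singleton_self 2) Submodule.mem_top
  obtain ⟨r, hr1, hr2⟩ := Submodule.exists_sub_one_mem_and_smul_eq_zero_of_fg_of_le_smul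
    (Ideal.span {(2 : ℤ)}) (⊤ : Submodule ℤ (A ⧸ t)) Module.Finite.fg_top hle
  have hr0 : r ≠ 0 := by
    rintro rfl
    rw [Ideal.mem_span_singleton] at hr1
    omega
  refine Module.finite_of_fg_torsion A fun P => ?_
  have h3 := hr2 (Submodule.Quotient.mk P) Submodule.mem_top
  rw [← Submodule.Quotient.mk_smul, Submodule.Quotient.mk_eq_zero, Submodule.mem_torsion_iff] at h3
  obtain ⟨a, ha⟩ := h3
  refine ⟨⟨(a : ℤ) * r, mul_mem a.2 (mem_nonZeroDivisors_of_ne_zero hr0)⟩, ?_⟩
  change ((a : ℤ) * r) • P = 0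
  rw [mul_smul]
  exact ha

/-- `Ш[2] = 0` -/
theorem sha_of (hdiv : ∀ P : PC W, ∃ Q : PC W, P = Q + Q) (hS : FT W) :
    ∀ x : Sha W, x + x = 0 → x = 0 := by
  intro x hx
  obtain ⟨f, rfl⟩ := QuotientAddGroup.mk_surjective x
  have hx1 : f + f ∈ (cob W).addSubgroupOf (shaCoc W) :=
    (QuotientAddGroup.eq_zero_iff (N := (cob W).addSubgroupOf (shaCoc W)) (f + f)).1 hx
  rw [AddSubgroup.mem_addSubgroupOf] at hx1
  obtain ⟨P, hP⟩ := hx1
  obtain ⟨Q, rfl⟩ := hdiv P
  have hP' : ∀ σ : Gal ℚ, (f : Coch W) σ + (f : Coch W) σ =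
    ga W σ (Q + Q) - (Q + Q) := hP
  have hg1 : IsShaCoc W (f.1 - cb W Q) := by
    rw [sub_eq_add_neg]
    exact sha_add f.2 (sha_neg (sha_cb W Q))
  have hg2 : ∀ σ, (f.1 - cb W Q) σ + (f.1 - cb W Q) σ = 0 := by
    intro σ
    have e1 : ∀ u v w : PC W, u + u = (v + v) - (w + w) →
        (u - (v - w)) + (u - (v - w)) = 0 := by
      intro u v w huv
      have e2 : (u - (v - w)) + (u - (v - w)) = (u + u) - ((v + v) - (w + w)) := by abel
      rw [e2, huv, sub_self]
    refine e1 _ _ _ ?_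
    rw [← map_add]
    exact hP' σ
  obtain ⟨R, -, hR⟩ := hS _ ⟨hg1, hg2⟩
  refine (QuotientAddGroup.eq_zero_iff _).2 ?_
  rw [AddSubgroup.mem_addSubgroupOf]
  refine ⟨Q + R, fun σ => ?_⟩
  have h1 : (f : Coch W) σ - (ga W σ Q - Q) = ga W σ R - R := hR σ
  rw [map_add]
  have e3 : ∀ u v w y z : PC W, u - (v - w) = y - z →
      u = v + y - (w + z) := by
    intro u v w y z h
    rw [sub_eq_iff_eq_add] at h
    rw [h]
    abel
  exact e3 _ _ _ _ _ h1

/-- `W(ℚ)` is finite -/
theorem finite_of (hfg : AddGroup.FG W.toAffine.Point)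
    (hdiv : ∀ P : PC W, ∃ Q : PC W, P = Q + Q) (hS : FT W) : Finite W.toAffine.Point := by
  obtain ⟨j, hj, hjσ, hjf⟩ := ex_rat W
  refine fin_of hfg fun P => ?_
  obtain ⟨R, hR⟩ := hdiv (j P)
  have h1 : ∀ σ, cb W R σ + cb W R σ = 0 := by
    intro σ
    have e1 : cb W R σ + cb W R σ = ga W σ (R + R) - (R + R) := by
      rw [map_add]
      change (ga W σ R - R) + (ga W σ R - R) = _
      abel
    rw [e1, ← hR]
    exact sub_eq_zero.2 (hjσ σ P)
  obtain ⟨T, ⟨m, hm0, hm⟩, hT⟩ := hS _ ⟨sha_cb W R, h1⟩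
  have h2 : ∀ σ : Gal ℚ, ga W σ (R - T) = R - T := by
    intro σ
    have h3 : ga W σ R - R = ga W σ T - T := hT σ
    rw [map_sub]
    have e2 : ∀ u v w y : PC W, u - v = w - y → u - w = v - y := by
      intro u v w y h
      rw [sub_eq_sub_iff_add_eq_add] at h ⊢
      rw [h]
      exact add_comm _ _
    exact e2 _ _ _ _ h3
  obtain ⟨Q, hQ⟩ := hjf _ h2
  refine ⟨Q, P - (Q + Q), by abel, m, hm0, hj ?_⟩
  rw [map_nsmul, map_sub, map_add, hQ, map_zero]
  have e3 : j P - ((R - T) + (R - T)) = T + T := by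
    have e4 : j P = R + R := hR
    rw [e4]
    abel
  rw [e3, smul_add, hm, add_zero]

/-- the Kummer map -/
theorem exists_kappa (hdiv : ∀ P : PC W, ∃ Q : PC W, P = Q + Q)
    (j : W.toAffine.Point →+ PC W) (hj : Function.Injective j)
    (hjσ : ∀ (σ : Gal ℚ) (P : W.toAffine.Point), ga W σ (j P) = j P)
    (hjf : ∀ P : PC W, (∀ σ : Gal ℚ, ga W σ P = P) → ∃ q, j q = P) :
    ∃ κ : W.toAffine.Point →+ Sel2 W,
      (∀ P, κ P = 0 ↔ ∃ q, P = q + q) ∧
      ∀ (P : W.toAffine.Point) (f : sel2Coc W),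
        κ P = QuotientAddGroup.mk f ↔ ∃ R : PC W, j P = R + R ∧ ∀ σ, f.1 σ = ga W σ R - R := by
  choose R hR using fun P => hdiv (j P)
  have h1 : ∀ P σ, cb W (R P) σ + cb W (R P) σ = 0 := by
    intro P σ
    have e1 : cb W (R P) σ + cb W (R P) σ = ga W σ (R P + R P) - (R P + R P) := by
      rw [map_add]
      change (ga W σ (R P) - R P) + (ga W σ (R P) - R P) = _
      abel
    rw [e1, ← hR]
    exact sub_eq_zero.2 (hjσ σ P)
  let c : W.toAffine.Point → sel2Coc W := fun P => ⟨cb W (R P), sha_cb W _, h1 P⟩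
  have hadd : ∀ P Q, (QuotientAddGroup.mk (c (P + Q)) : Sel2 W) =
      QuotientAddGroup.mk (c P) + QuotientAddGroup.mk (c Q) := by
    intro P Q
    change _ = (QuotientAddGroup.mk (c P + c Q) : Sel2 W)
    refine QuotientAddGroup.eq.2 ?_
    rw [AddSubgroup.mem_addSubgroupOf]
    refine ⟨-R (P + Q) + (R P + R Q), ?_, fun σ => ?_⟩
    · have e1 : -R (P + Q) + (R P + R Q) + (-R (P + Q) + (R P + R Q)) =
          -(R (P + Q) + R (P + Q)) + ((R P + R P) + (R Q + R Q)) := by abel
      rw [e1, ← hR, ← hR, ← hR, map_add]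
      abel
    · change -(ga W σ (R (P + Q)) - R (P + Q)) + ((ga W σ (R P) - R P) + (ga W σ (R Q) - R Q)) =
        ga W σ (-R (P + Q) + (R P + R Q)) - (-R (P + Q) + (R P + R Q))
      rw [map_add, map_add, map_neg]
      abel
  let κ : W.toAffine.Point →+ Sel2 W :=
    AddMonoidHom.mk' (fun P => (QuotientAddGroup.mk (c P) : Sel2 W)) hadd
  have hκ : ∀ (P : W.toAffine.Point) (f : sel2Coc W),
      κ P = QuotientAddGroup.mk f ↔ ∃ R : PC W, j P = R + R ∧ ∀ σ, f.1 σ = ga W σ R - R := by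
    intro P f
    constructor
    · intro h
      have h2 : -c P + f ∈ (cob2 W).addSubgroupOf (sel2Coc W) := QuotientAddGroup.eq.1 h
      rw [AddSubgroup.mem_addSubgroupOf] at h2
      obtain ⟨T, hT1, hT2⟩ := h2
      refine ⟨R P + T, ?_, fun σ => ?_⟩
      · have e1 : R P + T + (R P + T) = (R P + R P) + (T + T) := by abel
        rw [e1, hT1, add_zero]
        exact hR P
      · have h3 : -(ga W σ (R P) - R P) + f.1 σ = ga W σ T - T := hT2 σ
        rw [map_add]
        have e2 : ∀ u v w y z : PC W, -(u - v) + w = y - z → w = u + y - (v + z) := by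
          intro u v w y z h
          have e3 : w = (u - v) + (-(u - v) + w) := by abel
          rw [e3, h]
          abel
        exact e2 _ _ _ _ _ h3
    · rintro ⟨S, hS1, hS2⟩
      change (QuotientAddGroup.mk (c P) : Sel2 W) = QuotientAddGroup.mk f
      refine QuotientAddGroup.eq.2 ?_
      rw [AddSubgroup.mem_addSubgroupOf]
      refine ⟨-R P + S, ?_, fun σ => ?_⟩
      · have e1 : -R P + S + (-R P + S) = -(R P + R P) + (S + S) := by abel
        rw [e1, ← hR, ← hS1]
        abel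
      · change -(ga W σ (R P) - R P) + f.1 σ = ga W σ (-R P + S) - (-R P + S)
        rw [hS2, map_add, map_neg]
        abel
  refine ⟨κ, fun P => ?_, hκ⟩
  have h0 : (0 : Sel2 W) = QuotientAddGroup.mk (0 : sel2Coc W) := rfl
  rw [h0, hκ]
  constructor
  · rintro ⟨S, hS1, hS2⟩
    obtain ⟨q, hq⟩ := hjf S fun σ => by
      have h2 : (0 : PC W) = ga W σ S - S := hS2 σ
      exact sub_eq_zero.1 h2.symm
    refine ⟨q, hj ?_⟩
    rw [hS1, ← hq, map_add]
  · rintro ⟨q, rfl⟩
    refine ⟨j q, map_add _ _ _, fun σ => ?_⟩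
    rw [hjσ, sub_self]
    rfl

lemma card_range {A B : Type} [AddCommGroup A] [Finite A] [AddCommGroup B] (κ : A →+ B)
    (h : ∀ P, κ P = 0 ↔ ∃ q, P = q + q) : Nat.card κ.range = Nat.card {x : A // x + x = 0} := by
  let d : A →+ A := AddMonoidHom.mk' (fun x => x + x) fun x y => by abel
  have h1 : Nat.card A = Nat.card κ.range * Nat.card κ.ker := by
    rw [AddSubgroup.card_eq_card_quotient_mul_card_addSubgroup κ.ker,
      Nat.card_congr (QuotientAddGroup.quotientKerEquivRange κ).toEquiv]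
  have h2 : Nat.card A = Nat.card d.range * Nat.card d.ker := by
    rw [AddSubgroup.card_eq_card_quotient_mul_card_addSubgroup d.ker,
      Nat.card_congr (QuotientAddGroup.quotientKerEquivRange d).toEquiv]
  have h3 : κ.ker = d.range := by
    ext x
    rw [AddMonoidHom.mem_ker, h, AddMonoidHom.mem_range]
    exact ⟨fun ⟨q, hq⟩ => ⟨q, hq.symm⟩, fun ⟨q, hq⟩ => ⟨q, hq.symm⟩⟩
  have h4 : Nat.card d.ker = Nat.card {x : A // x + x = 0} :=
    Nat.card_congr (Equiv.subtypeEquivRight fun x => AddMonoidHom.mem_ker)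
  rw [← h4]
  rw [h3] at h1
  have h5 : 0 < Nat.card d.range := Nat.card_pos
  rw [h2, mul_comm] at h1
  exact (Nat.eq_of_mul_eq_mul_right h5 h1).symm

/-- the order of the Selmer group if `W(ℚ)` is finite and `Ш[2] = 0` -/
theorem card_of (hdiv : ∀ P : PC W, ∃ Q : PC W, P = Q + Q) (hfin : Finite W.toAffine.Point)
    (hS : ∀ x : Sha W, x + x = 0 → x = 0) :
    Nat.card (Sel2 W) = Nat.card {P : W.toAffine.Point // P + P = 0} := by
  obtain ⟨j, hj, hjσ, hjf⟩ := ex_rat W
  obtain ⟨κ, hκ1, hκ2⟩ := exists_kappa hdiv j hj hjσ hjf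
  rw [← card_range κ hκ1]
  have hsurj : κ.range = ⊤ := by
    rw [eq_top_iff]
    rintro x -
    obtain ⟨f, rfl⟩ := QuotientAddGroup.mk_surjective x
    have hf : IsSel2 W f.1 := f.2
    obtain ⟨g, hg⟩ : ∃ g : shaCoc W, g.1 = f.1 := ⟨⟨f.1, hf.1⟩, rfl⟩
    have h0 : g + g = 0 := by
      apply Subtype.ext
      funext σ
      change g.1 σ + g.1 σ = 0
      rw [hg]
      exact hf.2 σ
    have h1 : (QuotientAddGroup.mk g : Sha W) + QuotientAddGroup.mk g = 0 := by
      change (QuotientAddGroup.mk (g + g) : Sha W) = 0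
      rw [h0]
      rfl
    have h3 := (QuotientAddGroup.eq_zero_iff _).1 (hS _ h1)
    rw [AddSubgroup.mem_addSubgroupOf] at h3
    obtain ⟨R, hR⟩ := h3
    have hR' : ∀ σ, f.1 σ = ga W σ R - R := fun σ => by rw [← hg]; exact hR σ
    obtain ⟨P, hP⟩ := hjf (R + R) fun σ => by
      have h4 := hf.2 σ
      rw [hR'] at h4
      rw [map_add]
      have e1 : ∀ u v : PC W, (u - v) + (u - v) = 0 → u + u = v + v := by
        intro u v h
        have e2 : (u - v) + (u - v) = (u + u) - (v + v) := by abel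
        rw [e2] at h
        exact sub_eq_zero.1 h
      exact e1 _ _ h4
    exact ⟨P, (hκ2 P f).2 ⟨R, hP, hR'⟩⟩
  rw [hsurj]
  exact (Nat.card_congr AddSubgroup.topEquiv.toEquiv).symm

/-- a minimal Selmer group comes from the torsion points -/
theorem ft_of (hfg : AddGroup.FG W.toAffine.Point) (hdiv : ∀ P : PC W, ∃ Q : PC W, P = Q + Q)
    (h : Nat.card (Sel2 W) = Nat.card {P : W.toAffine.Point // P + P = 0}) : FT W := by
  obtain ⟨j, hj, hjσ, hjf⟩ := ex_rat W
  obtain ⟨κ, hκ1, hκ2⟩ := exists_kappa hdiv j hj hjσ hjf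
  have hM : Module.Finite ℤ W.toAffine.Point := Module.Finite.iff_addGroup_fg.2 hfg
  let t : Submodule ℤ W.toAffine.Point := Submodule.torsion ℤ W.toAffine.Point
  have hT : Finite t := Module.finite_of_fg_torsion _ Submodule.torsion_isTorsion
  have hTt : ∀ T : W.toAffine.Point, (∃ n : ℕ, n ≠ 0 ∧ n • T = 0) ↔ T ∈ t := by
    intro T
    constructor
    · rintro ⟨m, hm0, hm⟩
      rw [Submodule.mem_torsion_iff]
      refine ⟨⟨(m : ℤ), mem_nonZeroDivisors_of_ne_zero (by exact_mod_cast hm0)⟩, ?_⟩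
      change (m : ℤ) • T = 0
      rw [natCast_zsmul, hm]
    · intro hT
      rw [Submodule.mem_torsion_iff] at hT
      obtain ⟨a, ha⟩ := hT
      have ha0 : (a : ℤ) ≠ 0 := nonZeroDivisors.coe_ne_zero a
      refine ⟨(a : ℤ).natAbs, by omega, ?_⟩
      have h1 : (a : ℤ) • T = 0 := ha
      rcases Int.natAbs_eq (a : ℤ) with h2 | h2
      · rw [h2, natCast_zsmul] at h1
        exact h1
      · rw [h2, neg_smul, natCast_zsmul, neg_eq_zero] at h1
        exact h1
  let κt : t →+ Sel2 W := κ.comp t.toAddSubgroup.subtype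
  have hk : ∀ P : t, κt P = 0 ↔ ∃ q : t, P = q + q := by
    intro P
    constructor
    · intro h1
      obtain ⟨q, hq⟩ := (hκ1 P.1).1 h1
      obtain ⟨n, hn0, hn⟩ := (hTt P.1).2 P.2
      refine ⟨⟨q, (hTt q).1 ⟨n * 2, by omega, ?_⟩⟩, Subtype.ext hq⟩
      rw [mul_smul, two_smul, ← hq, hn]
    · rintro ⟨q, rfl⟩
      exact (hκ1 _).2 ⟨q.1, rfl⟩
  have h1 := card_range κt hk
  have h2 : Nat.card {x : t // x + x = 0} = Nat.card {P : W.toAffine.Point // P + P = 0} := by
    refine Nat.card_congr ⟨fun x => ⟨x.1.1, congrArg Subtype.val x.2⟩, fun P =>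
      ⟨⟨P.1, (hTt _).1 ⟨2, two_ne_zero, by rw [two_smul]; exact P.2⟩⟩, Subtype.ext P.2⟩,
      fun x => rfl, fun P => rfl⟩
  have hfinT : Finite {x : t // x + x = 0} := inferInstance
  have hne : Nonempty {x : t // x + x = 0} := ⟨⟨0, add_zero 0⟩⟩
  have hpos : 0 < Nat.card (Sel2 W) := by
    rw [h, ← h2]
    exact Nat.card_pos
  have hfin : Finite (Sel2 W) := Nat.finite_of_card_ne_zero hpos.ne'
  have htop : κt.range = ⊤ := AddSubgroup.eq_top_of_card_eq _ (by rw [h1, h2, h])
  intro f hf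
  have h3 : (QuotientAddGroup.mk (⟨f, hf⟩ : sel2Coc W) : Sel2 W) ∈ κt.range := by
    rw [htop]
    exact AddSubgroup.mem_top _
  obtain ⟨P, hP⟩ := h3
  obtain ⟨R, hR1, hR2⟩ := (hκ2 P.1 _).1 hP
  obtain ⟨n, hn0, hn⟩ := (hTt P.1).2 P.2
  refine ⟨R, ⟨n * 2, by omega, ?_⟩, hR2⟩
  rw [mul_smul, two_smul, ← hR1, ← map_nsmul, hn, map_zero]

end general

/-- halving over the algebraic closure -/
lemma hdiv_of {a b : ℤ} (hab : 4 * a ^ 3 + 27 * b ^ 2 ≠ 0) :
    ∀ P : PC (E a b), ∃ Q : PC (E a b), P = Q + Q := by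
  classical
  have hab' : 4 * (a : AlgebraicClosure ℚ) ^ 3 + 27 * (b : AlgebraicClosure ℚ) ^ 2 ≠ 0 := by exact_mod_cast hab
  obtain ⟨e, he⟩ := IsAlgClosed.exists_root
    (Polynomial.X ^ 3 + (Polynomial.C (a : AlgebraicClosure ℚ) * Polynomial.X + Polynomial.C (b : AlgebraicClosure ℚ))) (by
      have : (Polynomial.X ^ 3 + (Polynomial.C (a : AlgebraicClosure ℚ) * Polynomial.X + Polynomial.C (b : AlgebraicClosure ℚ))).degree
          = 3 := by compute_degree!
      rw [this]
      norm_num)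
  have he' : e ^ 3 + (a * e + b) = 0 := by
    have h1 := he
    rw [Polynomial.IsRoot, Polynomial.eval_add, Polynomial.eval_add, Polynomial.eval_mul,
      Polynomial.eval_pow, Polynomial.eval_X, Polynomial.eval_C, Polynomial.eval_C] at h1
    exact h1
  obtain ⟨s, hs⟩ := IsAlgClosed.exists_pow_nat_eq (-3 * e ^ 2 - 4 * a : AlgebraicClosure ℚ) (n := 2) (by norm_num)
  have hz : ∀ z : ℤ, algebraMap ℚ (AlgebraicClosure ℚ) ((z : ℤ) : ℚ) = (z : AlgebraicClosure ℚ) := fun z => map_intCast _ z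
  have hR : IsR (BC (E a b)) e ((-e + s) / 2) ((-e - s) / 2) := by
    refine ⟨?_, ?_, ?_, ?_, ?_⟩
    · exact map_zero _
    · refine (map_zero (algebraMap ℚ (AlgebraicClosure ℚ))).trans ?_
      ring
    · exact map_zero _
    · refine (hz _).trans ?_
      linear_combination (1 / 4 : AlgebraicClosure ℚ) * hs
    · refine (hz _).trans ?_
      linear_combination he' - (e / 4) * hs
  have h12 : e ≠ (-e + s) / 2 := by
    intro h
    have h1 : s = 3 * e := by linear_combination -2 * h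
    rw [h1] at hs
    have h2 : (a : AlgebraicClosure ℚ) = -3 * e ^ 2 := by linear_combination (1 / 4 : AlgebraicClosure ℚ) * hs
    apply hab'
    have h3 : (b : AlgebraicClosure ℚ) = 2 * e ^ 3 := by
      rw [h2] at he'
      linear_combination he'
    rw [h2, h3]
    ring
  have h13 : e ≠ (-e - s) / 2 := by
    intro h
    have h1 : s = -3 * e := by linear_combination 2 * h
    rw [h1] at hs
    have h2 : (a : AlgebraicClosure ℚ) = -3 * e ^ 2 := by linear_combination (1 / 4 : AlgebraicClosure ℚ) * hs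
    apply hab'
    have h3 : (b : AlgebraicClosure ℚ) = 2 * e ^ 3 := by
      rw [h2] at he'
      linear_combination he'
    rw [h2, h3]
    ring
  have h23 : (-e + s) / 2 ≠ (-e - s) / 2 := by
    intro h
    have h1 : s = 0 := by linear_combination h
    rw [h1] at hs
    have h2 : (a : AlgebraicClosure ℚ) = -3 / 4 * e ^ 2 := by linear_combination (1 / 4 : AlgebraicClosure ℚ) * hs
    apply hab'
    have h3 : (b : AlgebraicClosure ℚ) = -1 / 4 * e ^ 3 := by
      rw [h2] at he'
      linear_combination he'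
    rw [h2, h3]
    ring
  intro P
  exact hR.div two_ne_zero h12 h13 h23 P

lemma fg {a b : ℤ} (hab : 4 * a ^ 3 + 27 * b ^ 2 ≠ 0) : AddGroup.FG (E a b).toAffine.Point := by
  have h := Pool.Agent.TH942.sfg (F := ℚ) (a := a) (b := b) (by exact_mod_cast hab)
  exact h

lemma ft_iff {a b : ℤ} (hab : 4 * a ^ 3 + 27 * b ^ 2 ≠ 0) :
    FromTorsion a b ↔ RankZeroShaTwo a b := by
  constructor
  · intro h
    have h' : FT (E a b) := h
    have hS := sha_of (hdiv_of hab) h'
    exact ⟨finite_of (fg hab) (hdiv_of hab) h', fun x hx => hS x (by rw [← two_nsmul]; exact hx)⟩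
  · rintro ⟨h1, h2⟩
    exact ft_of (fg hab) (hdiv_of hab)
      (card_of (hdiv_of hab) h1 fun x hx => h2 x (by rw [two_nsmul]; exact hx))

lemma min_iff {a b : ℤ} (hab : 4 * a ^ 3 + 27 * b ^ 2 ≠ 0) : Minimal a b ↔ RankZeroShaTwo a b := by
  constructor
  · intro h
    exact (ft_iff hab).1 (ft_of (fg hab) (hdiv_of hab) h)
  · rintro ⟨h1, h2⟩
    exact card_of (hdiv_of hab) h1 fun x hx => h2 x (by rw [two_nsmul]; exact hx)

lemma disc14 {D : ℕ} {M : ℤ} (hD : Base D) (hM : Fam14 M) :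
    4 * (5805 * (M * D) ^ 2) ^ 3 + 27 * (-285714 * (M * D) ^ 3) ^ 2 ≠ 0 := by
  have hD' : V11291.E49.BaseN D := hD
  have hM' : Y687.MQ.AdmD M := hM
  exact V11291.E49.disc14 (mul_ne_zero hM'.1.ne_zero hD'.adm.1.ne_zero)

lemma disc49 {D : ℕ} {L : ℤ} (hD : Base D) (hL : Fam49 L) :
    4 * (-35 * (L * D) ^ 2) ^ 3 + 27 * (-98 * (L * D) ^ 3) ^ 2 ≠ 0 := by
  have hD' : V11291.E49.BaseN D := hD
  have hL' : V11291.E49.Fam49 L := hL
  exact V11291.E49.disc49 (mul_ne_zero hL'.1.ne_zero hD'.adm.1.ne_zero)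

/-- **Main theorem.**
(1) For all elliptic curves `y² = x³ + a x + b` with integers `a`, `b`: the 2-Selmer group is minimal if and
only if all its elements come from rational torsion points, if and only if there are only finitely many
rational points and no elements of order two in `Ш`.
(2) There is `c = ∏_{i ≥ 0} (1 - 2^{-(2i+1)}) = 0.4194...` such that for all finite sets `S`, `S'` in `Fam14`
and `T`, `T'` in `Fam49`, `S` and `S'` disjoint, `T` and `T'` disjoint, the proportion of the `D` of the base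
family such that the 2-Selmer groups of all the curves `E_{M D}`, `M ∈ S`, and `A_{L D}`, `L ∈ T`, are
minimal and those of all the curves `E_{M D}`, `M ∈ S'`, and `A_{L D}`, `L ∈ T'`, are not minimal, tends to
`c ^ (#S + #T) (1 - c) ^ (#S' + #T')`. -/
theorem result : (∀ a b : ℤ, 4 * a ^ 3 + 27 * b ^ 2 ≠ 0 →
      (Minimal a b ↔ RankZeroShaTwo a b) ∧ (FromTorsion a b ↔ RankZeroShaTwo a b)) ∧
    ∃ c : ℝ, 0.4194 < c ∧ c < 0.4195 ∧
    Filter.Tendsto (fun n : ℕ => ∏ i ∈ range n, (1 - (1 / 2 : ℝ) ^ (2 * i + 1)))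
      Filter.atTop (nhds c) ∧
    ∀ S T S' T' : Finset ℤ, (∀ M ∈ S, Fam14 M) → (∀ L ∈ T, Fam49 L) →
      (∀ M ∈ S', Fam14 M) → (∀ L ∈ T', Fam49 L) → Disjoint S S' → Disjoint T T' →
      Filter.Tendsto (fun X : ℕ =>
        (count (fun D => All S T Minimal D ∧ All S' T' (fun a b => ¬ Minimal a b) D) X : ℝ) /
          (count (fun _ => True) X : ℝ)) Filter.atTop
        (nhds (c ^ (S.card + T.card) * (1 - c) ^ (S'.card + T'.card))) := by
  classical
  refine ⟨fun a b hab => ⟨min_iff hab, ft_iff hab⟩, ?_⟩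
  obtain ⟨c, h1, h2, h3, h4⟩ := Pool.Agent.Results.MP_03e5d0_nt.TwoCurvesAnalyticRankZero.result
  refine ⟨c, h1, h2, h3, fun S T S' T' hS hT hS' hT' hd1 hd2 => ?_⟩
  refine ((h4 S T hS hT).1 S' T' hS' hT' hd1 hd2).congr fun X => ?_
  congr 2
  unfold count
  refine congrArg Finset.card (Finset.ext fun D => ?_)
  refine (mem_fil _ _ _ _).trans (Iff.trans ?_ (mem_fil _ _ _ _).symm)
  refine and_congr_right fun _ => and_congr_right fun hD => and_congr (and_congr ?_ ?_) (and_congr ?_ ?_)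
  · refine forall_congr' fun M => forall_congr' fun hM => ?_
    rw [min_iff (disc14 hD (hS M hM))]
    exact ⟨fun h => h.2, fun h => ⟨an14 hD (hS M hM) h, h⟩⟩
  · refine forall_congr' fun L => forall_congr' fun hL => ?_
    rw [min_iff (disc49 hD (hT L hL))]
    exact ⟨fun h => h.2, fun h => ⟨an49 hD (hT L hL) h, h⟩⟩
  · refine forall_congr' fun M => forall_congr' fun hM => ?_
    exact not_congr (min_iff (disc14 hD (hS' M hM))).symm
  · refine forall_congr' fun L => forall_congr' fun hL => ?_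
    exact not_congr (min_iff (disc49 hD (hT' L hL))).symm

end Pool.Agent.Results.MP_8cb858_nt.TwoCurvesSelmerTwo
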